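import Pool.Agent.Y476.RM.Stm

/-!
Representation of bounded functionals on trigonometric polynomials.
-/

set_option autoImplicit false
open MeasureTheory Filter Topology
open scoped ENNReal

namespace Pool.Agent.Y290.HM.Riesz

open Pool.Agent.Y476.RM

/-- abstract version -/
lemma abstr {H : Type*} [NormedAddCommGroup H] [InnerProductSpace ℂ H] [CompleteSpace H]
    {ι : Type*} (w : ι → H) (C : ι → ℂ) (K : ℝ) (hK : 0 ≤ K)
    (h : ∀ (s : Finset ι) (c : ι → ℂ), ‖∑ i ∈ s, c i * C i‖ ^ 2 ≤ K * ‖∑ i ∈ s, c i • w i‖ ^ 2) :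
    ∃ ψ : H, ∀ i, inner ℂ ψ (w i) = C i := by
  classical
  set T : (ι →₀ ℂ) →ₗ[ℂ] H := Finsupp.linearCombination ℂ w with hT
  set S : (ι →₀ ℂ) →ₗ[ℂ] ℂ := Finsupp.linearCombination ℂ C with hS
  have hb : ∀ f : ι →₀ ℂ, ‖S f‖ ≤ √K * ‖T f‖ := by
    intro f
    have h1 := h f.support f
    have h2 : S f = ∑ i ∈ f.support, f i * C i := by
      rw [hS, Finsupp.linearCombination_apply]
      rfl
    have h3 : T f = ∑ i ∈ f.support, f i • w i := by
      rw [hT, Finsupp.linearCombination_apply]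
      rfl
    rw [← h2, ← h3] at h1
    apply le_of_sq_le_sq _ (by positivity)
    rw [mul_pow, Real.sq_sqrt hK]
    exact h1
  have hker : LinearMap.ker T ≤ LinearMap.ker S := by
    intro f hf
    rw [LinearMap.mem_ker] at hf ⊢
    have := hb f
    rw [hf, norm_zero, mul_zero] at this
    exact norm_le_zero_iff.1 this
  let L0 : LinearMap.range T →ₗ[ℂ] ℂ :=
    (Submodule.liftQ (LinearMap.ker T) S hker).comp
      (T.quotKerEquivRange.symm : LinearMap.range T →ₗ[ℂ] _)
  have hL0 : ∀ f : ι →₀ ℂ, L0 ⟨T f, LinearMap.mem_range_self T f⟩ = S f := by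
    intro f
    show Submodule.liftQ (LinearMap.ker T) S hker
      (T.quotKerEquivRange.symm ⟨T f, LinearMap.mem_range_self T f⟩) = S f
    rw [LinearMap.quotKerEquivRange_symm_apply_image T f (LinearMap.mem_range_self T f)]
    exact Submodule.liftQ_apply (LinearMap.ker T) S f
  let L : StrongDual ℂ (LinearMap.range T) := L0.mkContinuous (√K) (by
    rintro ⟨x, f, rfl⟩
    rw [hL0 f]
    exact hb f)
  obtain ⟨G, hG, -⟩ := exists_extension_norm_eq (LinearMap.range T) L
  refine ⟨(InnerProductSpace.toDual ℂ H).symm G, fun i => ?_⟩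
  rw [InnerProductSpace.toDual_symm_apply]
  have h1 : T (Finsupp.single i 1) = w i := by
    rw [hT, Finsupp.linearCombination_single, one_smul]
  have h2 : S (Finsupp.single i 1) = C i := by
    rw [hS, Finsupp.linearCombination_single, one_smul]
  have h3 := hG ⟨T (Finsupp.single i 1), LinearMap.mem_range_self T _⟩
  have h4 : L ⟨T (Finsupp.single i 1), LinearMap.mem_range_self T _⟩ = S (Finsupp.single i 1) :=
    hL0 _
  rw [h4, h2] at h3
  rw [← h1]
  exact h3

/-- characters of the two dimensional torus -/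
noncomputable def ch (a b : ℤ) (w : TT × TT) : ℂ := (fourier a w.1 : ℂ) * (fourier b w.2 : ℂ)

lemma ch_cont (a b : ℤ) : Continuous (ch a b) :=
  ((fourier a).continuous.comp continuous_fst).mul ((fourier b).continuous.comp continuous_snd)

lemma ch_norm (a b : ℤ) (w : TT × TT) : ‖ch a b w‖ ≤ 1 := by
  unfold ch
  rw [norm_mul, fourier_apply, fourier_apply, Circle.norm_coe, Circle.norm_coe, one_mul]

lemma ch_mem (m : Measure (TT × TT)) [IsFiniteMeasure m] (a b : ℤ) : MemLp (ch a b) 2 m :=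
  MemLp.of_bound (ch_cont a b).aestronglyMeasurable 1 (Eventually.of_forall (ch_norm a b))

lemma ch_mul (a b a' b' : ℤ) (w : TT × TT) :
    ch a b w * (starRingEnd ℂ) (ch a' b' w) = ch (a - a') (b - b') w := by
  unfold ch
  rw [map_mul, ← fourier_neg, ← fourier_neg, sub_eq_add_neg, sub_eq_add_neg, fourier_add,
    fourier_add]
  ring

theorem t : S_RIESZ := by
  intro σ σ' _ _ ι u v C K h
  set m := σ.prod σ' with hm
  let W : ι → Lp ℂ 2 m := fun i => (ch_mem m (u i) (v i)).toLp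
  have hW : ∀ i j, inner ℂ (W j) (W i) =
      (∫ x, (fourier (u i - u j) x : ℂ) ∂σ) * (∫ x, (fourier (v i - v j) x : ℂ) ∂σ') := by
    intro i j
    rw [L2.inner_def]
    have h1 : (fun a => inner ℂ ((W j : Lp ℂ 2 m) a) ((W i : Lp ℂ 2 m) a)) =ᵐ[m]
        fun w => ch (u i - u j) (v i - v j) w := by
      filter_upwards [(ch_mem m (u i) (v i)).coeFn_toLp, (ch_mem m (u j) (v j)).coeFn_toLp]
        with w h1 h2
      show inner ℂ (((ch_mem m (u j) (v j)).toLp : Lp ℂ 2 m) w)
        (((ch_mem m (u i) (v i)).toLp : Lp ℂ 2 m) w) = _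
      rw [h1, h2, ← ch_mul]
      rw [RCLike.inner_apply]
    rw [integral_congr_ae h1]
    exact integral_prod_mul (fun x => (fourier (u i - u j) x : ℂ)) (fun x => (fourier (v i - v j) x : ℂ))
  have hnorm : ∀ (s : Finset ι) (c : ι → ℂ), ‖∑ i ∈ s, c i • W i‖ ^ 2 =
      (∑ i ∈ s, ∑ j ∈ s, c i * (starRingEnd ℂ) (c j) *
        (∫ x, (fourier (u i - u j) x : ℂ) ∂σ) * (∫ x, (fourier (v i - v j) x : ℂ) ∂σ')).re := by
    intro s c
    have h1 : ‖∑ i ∈ s, c i • W i‖ ^ 2 =
        (inner ℂ (∑ i ∈ s, c i • W i) (∑ i ∈ s, c i • W i)).re := by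
      rw [← inner_self_eq_norm_sq (𝕜 := ℂ)]
      rfl
    rw [h1]
    congr 1
    rw [inner_sum]
    refine Finset.sum_congr rfl fun i _ => ?_
    rw [sum_inner]
    refine Finset.sum_congr rfl fun j _ => ?_
    rw [inner_smul_left, inner_smul_right, hW i j]
    ring
  have h' : ∀ (s : Finset ι) (c : ι → ℂ),
      ‖∑ i ∈ s, c i * C i‖ ^ 2 ≤ max K 0 * ‖∑ i ∈ s, c i • W i‖ ^ 2 := by
    intro s c
    have h1 := h s c
    rw [← hnorm] at h1
    exact h1.trans (mul_le_mul_of_nonneg_right (le_max_left _ _) (sq_nonneg _))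
  obtain ⟨ψ0, hψ⟩ := abstr W C (max K 0) (le_max_right _ _) h'
  refine ⟨fun w => (starRingEnd ℂ) (ψ0 w), ?_, ?_, ?_⟩
  · exact Complex.continuous_conj.measurable.comp (Lp.stronglyMeasurable ψ0).measurable
  · have h1 : Integrable (ψ0 : TT × TT → ℂ) m := (Lp.memLp ψ0).integrable (by norm_num)
    refine (integrable_norm_iff ?_).1 ?_
    · exact (Complex.continuous_conj.measurable.comp
        (Lp.stronglyMeasurable ψ0).measurable).aestronglyMeasurable
    · simpa using h1.norm
  · intro i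
    rw [← hψ i, L2.inner_def]
    apply integral_congr_ae
    filter_upwards [(ch_mem m (u i) (v i)).coeFn_toLp] with w h1
    show inner ℂ ((ψ0 : Lp ℂ 2 m) w) (((ch_mem m (u i) (v i)).toLp : Lp ℂ 2 m) w) = _
    rw [h1, RCLike.inner_apply]
    rfl

end Pool.Agent.Y290.HM.Riesz
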