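import Pool.Agent.Y476.RM.Stm

/-!
Uniqueness of the Fourier coefficients of integrable densities on the two dimensional torus.
-/

set_option autoImplicit false
open MeasureTheory Filter Topology
open scoped ENNReal

namespace Pool.Agent.Y290.HM.Uniq

open Pool.Agent.Y476.RM

/-- continuous functions against `u` -/
lemma cont_zero (m : Measure (TT × TT)) [IsFiniteMeasure m] (u : TT × TT → ℂ)
    (hu : Integrable u m)
    (h : ∀ a b : ℤ, ∫ w, (fourier a w.1 : ℂ) * (fourier b w.2 : ℂ) * u w ∂m = 0)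
    (f : C(TT × TT, ℂ)) : ∫ w, f w * u w ∂m = 0 := by
  have hcont : ∀ φ : C(UnitAddTorus (Fin 2), ℂ),
      Continuous fun w : TT × TT => φ (![w.1, w.2]) := by
    intro φ
    apply φ.continuous.comp
    apply continuous_pi
    intro i
    fin_cases i
    · exact continuous_fst
    · exact continuous_snd
  have hbd : ∀ φ : C(UnitAddTorus (Fin 2), ℂ), ∀ w : TT × TT, ‖φ (![w.1, w.2])‖ ≤ ‖φ‖ :=
    fun φ w => φ.norm_coe_le_norm _
  have hint : ∀ φ : C(UnitAddTorus (Fin 2), ℂ),
      Integrable (fun w : TT × TT => φ (![w.1, w.2]) * u w) m := by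
    intro φ
    exact hu.bdd_mul (c := ‖φ‖) (hcont φ).aestronglyMeasurable (Eventually.of_forall (hbd φ))
  let Φ : C(UnitAddTorus (Fin 2), ℂ) →ₗ[ℂ] ℂ :=
    { toFun := fun φ => ∫ w, φ (![w.1, w.2]) * u w ∂m
      map_add' := by
        intro φ ψ
        rw [← integral_add (hint φ) (hint ψ)]
        congr 1
        funext w
        simp only [ContinuousMap.add_apply]
        ring
      map_smul' := by
        intro c φ
        simp only [ContinuousMap.smul_apply, smul_eq_mul, RingHom.id_apply]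
        rw [← integral_const_mul]
        congr 1
        funext w
        ring }
  let Φ' : C(UnitAddTorus (Fin 2), ℂ) →L[ℂ] ℂ := Φ.mkContinuous (∫ w, ‖u w‖ ∂m) (by
    intro φ
    show ‖∫ w, φ (![w.1, w.2]) * u w ∂m‖ ≤ _
    refine (norm_integral_le_integral_norm _).trans ?_
    rw [mul_comm, ← integral_const_mul]
    apply integral_mono (hint φ).norm (hu.norm.const_mul _)
    intro w
    simp only [norm_mul]
    exact mul_le_mul_of_nonneg_right (hbd φ w) (norm_nonneg _))
  have hker : (Submodule.span ℂ (Set.range (UnitAddTorus.mFourier (d := Fin 2)))) ≤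
      LinearMap.ker (Φ' : C(UnitAddTorus (Fin 2), ℂ) →ₗ[ℂ] ℂ) := by
    rw [Submodule.span_le]
    rintro φ ⟨n, rfl⟩
    show ∫ w, UnitAddTorus.mFourier n (![w.1, w.2]) * u w ∂m = 0
    rw [← h (n 0) (n 1)]
    congr 1
    funext w
    simp [UnitAddTorus.mFourier, Fin.prod_univ_two]
  have hclosed : IsClosed ((LinearMap.ker (Φ' : C(UnitAddTorus (Fin 2), ℂ) →ₗ[ℂ] ℂ) :
      Submodule ℂ C(UnitAddTorus (Fin 2), ℂ)) : Set C(UnitAddTorus (Fin 2), ℂ)) := by
    have : ((LinearMap.ker (Φ' : C(UnitAddTorus (Fin 2), ℂ) →ₗ[ℂ] ℂ) :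
      Submodule ℂ C(UnitAddTorus (Fin 2), ℂ)) : Set C(UnitAddTorus (Fin 2), ℂ)) = Φ' ⁻¹' {0} := by
      ext x
      simp
    rw [this]
    exact isClosed_singleton.preimage Φ'.continuous
  have htop := Submodule.topologicalClosure_minimal _ hker hclosed
  rw [UnitAddTorus.span_mFourier_closure_eq_top] at htop
  let g : C(UnitAddTorus (Fin 2), ℂ) := f.comp ⟨fun x => (x 0, x 1), by fun_prop⟩
  have hg : g ∈ LinearMap.ker (Φ' : C(UnitAddTorus (Fin 2), ℂ) →ₗ[ℂ] ℂ) :=
    htop Submodule.mem_top
  have hg' : ∫ w, g (![w.1, w.2]) * u w ∂m = 0 := hg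
  rw [← hg']
  rfl

theorem t : S_UNIQ := by
  intro m _ u hu h
  apply ae_eq_zero_of_forall_setIntegral_isClosed_eq_zero hu
  intro F hF
  rw [← integral_indicator hF.measurableSet]
  have hδ : ∀ n : ℕ, (0 : ℝ) < 1 / ((n : ℝ) + 1) := fun n => by positivity
  have hδ0 : Tendsto (fun n : ℕ => 1 / ((n : ℝ) + 1)) atTop (𝓝 0) :=
    tendsto_one_div_add_atTop_nhds_zero_nat
  have hth := thickenedIndicator_tendsto_indicator_closure hδ hδ0 F
  rw [tendsto_pi_nhds] at hth
  have ht : Tendsto (fun n : ℕ => ∫ w, (((thickenedIndicator (hδ n) F w : NNReal) : ℝ) : ℂ) * u w ∂m)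
      atTop (𝓝 (∫ w, F.indicator u w ∂m)) := by
    apply tendsto_integral_of_dominated_convergence (fun w => ‖u w‖)
    · intro n
      apply AEStronglyMeasurable.mul _ hu.aestronglyMeasurable
      apply Continuous.aestronglyMeasurable
      exact Complex.continuous_ofReal.comp
        (NNReal.continuous_coe.comp (thickenedIndicator (hδ n) F).continuous)
    · exact hu.norm
    · intro n
      apply Eventually.of_forall
      intro w
      rw [norm_mul]
      have h1 : ‖(((thickenedIndicator (hδ n) F w : NNReal) : ℝ) : ℂ)‖ ≤ 1 := by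
        rw [Complex.norm_real, Real.norm_of_nonneg (NNReal.coe_nonneg _)]
        exact_mod_cast thickenedIndicator_le_one (hδ n) F w
      calc _ ≤ 1 * ‖u w‖ := mul_le_mul_of_nonneg_right h1 (norm_nonneg _)
        _ = ‖u w‖ := one_mul _
    · apply Eventually.of_forall
      intro w
      have h1 := hth w
      rw [hF.closure_eq] at h1
      have h2 : Tendsto (fun n : ℕ => (((thickenedIndicator (hδ n) F w : NNReal) : ℝ) : ℂ)) atTop
          (𝓝 (((F.indicator (fun _ => (1 : NNReal)) w : NNReal) : ℝ) : ℂ)) :=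
        (Complex.continuous_ofReal.tendsto _).comp ((NNReal.continuous_coe.tendsto _).comp h1)
      have h3 : F.indicator u w = (((F.indicator (fun _ => (1 : NNReal)) w : NNReal) : ℝ) : ℂ) * u w := by
        by_cases hw : w ∈ F
        · simp [hw]
        · simp [hw]
      rw [h3]
      exact h2.mul_const _
  have h0 : ∀ n : ℕ, ∫ w, (((thickenedIndicator (hδ n) F w : NNReal) : ℝ) : ℂ) * u w ∂m = 0 := by
    intro n
    exact cont_zero m u hu h ⟨fun w => (((thickenedIndicator (hδ n) F w : NNReal) : ℝ) : ℂ),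
      Complex.continuous_ofReal.comp
        (NNReal.continuous_coe.comp (thickenedIndicator (hδ n) F).continuous)⟩
  simp_rw [h0] at ht
  exact tendsto_nhds_unique ht tendsto_const_nhds

end Pool.Agent.Y290.HM.Uniq
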